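import Pool.Agent.Y208.BH.Stm

/-! Project BH, task TF4: the point stabilizers of the action of Thompson's group `F` on the positive
dyadic rationals are finitely generated. -/

set_option autoImplicit false

namespace Pool.Agent.Y983.BH

open Y208.BH

section rel

variable {G : Type} [Group G] {X : ℕ → G}

/-- the elements `w j` -/
def w (X : ℕ → G) (j : ℕ) : G := (X 0 ^ (j + 1))⁻¹ * X 1 * X 0 ^ j

/-- generators of the stabilizer of `1` -/
def gens (X : ℕ → G) : Set G := {g | ∃ k, 1 ≤ k ∧ g = X k} ∪ {g | ∃ j, 1 ≤ j ∧ g = w X j}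

/-- the stabilizer of `1` -/
def P (X : ℕ → G) : Subgroup G := Subgroup.closure (gens X)

theorem X_mem {k : ℕ} (hk : 1 ≤ k) : X k ∈ P X :=
  Subgroup.subset_closure (Or.inl ⟨k, hk, rfl⟩)

theorem w_mem {k : ℕ} (hk : 1 ≤ k) : w X k ∈ P X :=
  Subgroup.subset_closure (Or.inr ⟨k, hk, rfl⟩)

theorem shift (h : TRel X) (i k : ℕ) (hk : 1 ≤ k) : X (k + i) * X 0 ^ i = X 0 ^ i * X k := by
  induction i with
  | zero => simp
  | succ i ih =>
    have e : X (k + (i + 1)) * X 0 = X 0 * X (k + i) := h 0 (k + i) (by omega)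
    rw [pow_succ', ← mul_assoc, e, mul_assoc, ih, mul_assoc]

theorem X_step (h : TRel X) (i j : ℕ) : X (i + 1) * X 0 ^ (i + j) = X 0 ^ (i + j + 1) * w X j := by
  have e := shift h i 1 le_rfl
  rw [add_comm 1 i] at e
  rw [pow_add (X 0) i j, ← mul_assoc, e, w]
  have e2 : X 0 ^ (i + j + 1) = X 0 ^ i * X 0 ^ (j + 1) := by rw [add_assoc, pow_add]
  rw [e2]
  group

theorem wrel (h : TRel X) (j : ℕ) (hj : 2 ≤ j) : w X (j + 1) * w X 1 = w X 1 * w X j := by
  obtain ⟨i, rfl⟩ : ∃ i, j = i + 1 := ⟨j - 1, by omega⟩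
  have e1 := shift h i 1 le_rfl
  rw [add_comm 1 i] at e1
  have e2 : X (i + 1 + 1) * X 1 = X 1 * X (i + 1) := h 1 (i + 1) (by omega)
  have e3 := shift h (i + 1) 1 le_rfl
  rw [add_comm 1 (i + 1)] at e3
  have l1 : w X (i + 1 + 1) * w X 1 =
      (X 0 ^ (i + 1 + 1 + 1))⁻¹ * X (i + 1 + 1) * X 1 * X 0 ^ (i + 1) := by
    have a1 : w X (i + 1 + 1) * w X 1 =
        (X 0 ^ (i + 1 + 1 + 1))⁻¹ * X 1 * (X 0 ^ i * X 1) * X 0 := by
      unfold w
      have : X 0 ^ (i + 1 + 1) = X 0 ^ i * X 0 ^ 2 := by rw [add_assoc, pow_add]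
      rw [this]
      group
    rw [a1, ← e1]
    have : (X 0 ^ (i + 1 + 1 + 1))⁻¹ * X 1 * (X (i + 1) * X 0 ^ i) * X 0 =
        (X 0 ^ (i + 1 + 1 + 1))⁻¹ * (X 1 * X (i + 1)) * (X 0 ^ i * X 0) := by group
    rw [this, ← e2, ← pow_succ]
    group
  have l2 : w X 1 * w X (i + 1) =
      (X 0 ^ 2)⁻¹ * X 1 * (X 0 ^ (i + 1))⁻¹ * X 1 * X 0 ^ (i + 1) := by
    unfold w
    have : X 0 ^ (i + 1 + 1) = X 0 ^ (i + 1) * X 0 := by rw [pow_succ]
    rw [this]
    group
  rw [l1, l2]
  congr 2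
  have e4 : X (i + 1 + 1) = X 0 ^ (i + 1) * X 1 * (X 0 ^ (i + 1))⁻¹ := by
    rw [← e3]; group
  rw [e4]
  have : X 0 ^ (i + 1 + 1 + 1) = X 0 ^ (i + 1) * X 0 ^ 2 := by rw [← pow_add]
  rw [this]
  group

theorem P_eq (h : TRel X) : P X = Subgroup.closure {X 1, X 2, w X 1, w X 2} := by
  apply le_antisymm
  · have g1 : ∀ k, X (k + 2) ∈ Subgroup.closure ({X 1, X 2, w X 1, w X 2} : Set G) := by
      intro k
      induction k with
      | zero => exact Subgroup.subset_closure (by simp)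
      | succ k ih =>
        have e : X (k + 2 + 1) * X 1 = X 1 * X (k + 2) := h 1 (k + 2) (by omega)
        have e2 : X (k + 1 + 2) = X 1 * X (k + 2) * (X 1)⁻¹ := by
          rw [← e]; group
        rw [e2]
        have h1 : X 1 ∈ Subgroup.closure ({X 1, X 2, w X 1, w X 2} : Set G) :=
          Subgroup.subset_closure (by simp)
        exact mul_mem (mul_mem h1 ih) (inv_mem h1)
    have g2 : ∀ k, w X (k + 2) ∈ Subgroup.closure ({X 1, X 2, w X 1, w X 2} : Set G) := by
      intro k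
      induction k with
      | zero => exact Subgroup.subset_closure (by simp)
      | succ k ih =>
        have e := wrel h (k + 2) (by omega)
        have e2 : w X (k + 1 + 2) = w X 1 * w X (k + 2) * (w X 1)⁻¹ := by
          rw [← e]; group
        rw [e2]
        have h1 : w X 1 ∈ Subgroup.closure ({X 1, X 2, w X 1, w X 2} : Set G) :=
          Subgroup.subset_closure (by simp)
        exact mul_mem (mul_mem h1 ih) (inv_mem h1)
    rw [P, Subgroup.closure_le]
    rintro g (⟨k, hk, rfl⟩ | ⟨k, hk, rfl⟩)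
    · rcases Nat.lt_or_ge k 2 with h2 | h2
      · have : k = 1 := by omega
        subst this
        exact Subgroup.subset_closure (by simp)
      · obtain ⟨i, rfl⟩ : ∃ i, k = i + 2 := ⟨k - 2, by omega⟩
        exact g1 i
    · rcases Nat.lt_or_ge k 2 with h2 | h2
      · have : k = 1 := by omega
        subst this
        exact Subgroup.subset_closure (by simp)
      · obtain ⟨i, rfl⟩ : ∃ i, k = i + 2 := ⟨k - 2, by omega⟩
        exact g2 i
  · rw [Subgroup.closure_le]
    rintro g hg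
    simp only [Set.mem_insert_iff, Set.mem_singleton_iff] at hg
    rcases hg with rfl | rfl | rfl | rfl
    · exact X_mem (by norm_num)
    · exact X_mem (by norm_num)
    · exact w_mem (by norm_num)
    · exact w_mem (by norm_num)

theorem P_fg (h : TRel X) : (P X).FG := by
  classical
  rw [P_eq h]
  exact ⟨{X 1, X 2, w X 1, w X 2}, by simp⟩

/-- the coset of the point `m + 1` -/
def a (X : ℕ → G) (m : ℕ) : G ⧸ P X := ((X 0 ^ m : G) : G ⧸ P X)

theorem a_ge (h : TRel X) (k m : ℕ) (hk : m + 1 ≤ k) : X k • a X m = a X m := by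
  obtain ⟨i, rfl⟩ : ∃ i, k = i + m := ⟨k - m, by omega⟩
  have e := shift h m i (by omega)
  change (((X (i + m) * X 0 ^ m : G)) : G ⧸ P X) = ((X 0 ^ m : G) : G ⧸ P X)
  rw [e]
  symm
  rw [QuotientGroup.eq]
  have : (X 0 ^ m)⁻¹ * (X 0 ^ m * X i) = X i := by group
  rw [this]
  exact X_mem (by omega)

theorem a_le (h : TRel X) (k m : ℕ) (hk : k ≤ m) : X k • a X m = a X (m + 1) := by
  rcases Nat.eq_zero_or_pos k with rfl | hk0
  · change (((X 0 * X 0 ^ m : G)) : G ⧸ P X) = ((X 0 ^ (m + 1) : G) : G ⧸ P X)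
    rw [pow_succ']
  · obtain ⟨i, rfl⟩ : ∃ i, k = i + 1 := ⟨k - 1, by omega⟩
    obtain ⟨j, rfl⟩ : ∃ j, m = i + j := ⟨m - i, by omega⟩
    have e := X_step h i j
    change (((X (i + 1) * X 0 ^ (i + j) : G)) : G ⧸ P X) = ((X 0 ^ (i + j + 1) : G) : G ⧸ P X)
    rw [e]
    symm
    rw [QuotientGroup.eq]
    have : (X 0 ^ (i + j + 1))⁻¹ * (X 0 ^ (i + j + 1) * w X j) = w X j := by group
    rw [this]
    exact w_mem (by omega)

end rel

section act

variable {G : Type} [Group G] [MulAction G Dy] {X : ℕ → G}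

theorem act_le (h : TAct G X) {n : ℕ} {t : Dy} (ht : (t : ℚ) ≤ n) : X n • t = t := by
  apply Subtype.ext
  rw [h.act, th, if_pos ht]

theorem act_mid (h : TAct G X) {n : ℕ} {t : Dy} (h1 : (n : ℚ) ≤ t) (h2 : (t : ℚ) ≤ n + 1) :
    ((X n • t : Dy) : ℚ) = 2 * t - n := by
  rw [h.act, th]
  by_cases h3 : (t : ℚ) ≤ n
  · rw [if_pos h3]; linarith
  · rw [if_neg h3, if_pos h2]; ring

theorem act_ge (h : TAct G X) {n : ℕ} {t : Dy} (h1 : (n : ℚ) + 1 ≤ t) :
    ((X n • t : Dy) : ℚ) = t + 1 := by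
  rw [h.act, th, if_neg (by linarith)]
  by_cases h3 : (t : ℚ) ≤ n + 1
  · rw [if_pos h3]; linarith
  · rw [if_neg h3]

/-- the level of a dyadic number -/
def Lv (K : ℕ) (t : Dy) : Prop := ∃ m : ℤ, 2 ^ K * (t : ℚ) = m

theorem lv_ex (t : Dy) : ∃ K, Lv K t := t.2.2

theorem lv_succ {K : ℕ} {t : Dy} (h : Lv K t) : Lv (K + 1) t := by
  obtain ⟨m, hm⟩ := h
  refine ⟨2 * m, ?_⟩
  push_cast
  rw [← hm]; ring

theorem lv_le {K L : ℕ} (hKL : K ≤ L) {t : Dy} (h : Lv K t) : Lv L t := by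
  induction L, hKL using Nat.le_induction with
  | base => exact h
  | succ n _ ih => exact lv_succ ih

open Classical in
/-- the coset of the point `t` -/
noncomputable def s (X : ℕ → G) : ℕ → Dy → G ⧸ P X
  | 0, t => a X (⌊(t : ℚ)⌋₊ - 1)
  | K + 1, t => if ∃ m : ℕ, (t : ℚ) = m then a X (⌊(t : ℚ)⌋₊ - 1) else
      (X ⌊(t : ℚ)⌋₊)⁻¹ • s X K (X ⌊(t : ℚ)⌋₊ • t)

theorem s_int (X : ℕ → G) (K : ℕ) (t : Dy) (m : ℕ) (ht : (t : ℚ) = m + 1) : s X K t = a X m := by
  have hf : ⌊(t : ℚ)⌋₊ - 1 = m := by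
    rw [ht]
    have : ((m : ℚ) + 1) = ((m + 1 : ℕ) : ℚ) := by push_cast; ring
    rw [this, Nat.floor_natCast]
    rfl
  cases K with
  | zero => rw [s, hf]
  | succ K => rw [s, if_pos ⟨m + 1, by rw [ht]; push_cast; ring⟩, hf]

theorem s_non (X : ℕ → G) (K : ℕ) (t : Dy) (n : ℕ) (h1 : (n : ℚ) < t) (h2 : (t : ℚ) < n + 1) :
    s X (K + 1) t = (X n)⁻¹ • s X K (X n • t) := by
  have hf : ⌊(t : ℚ)⌋₊ = n := by
    rw [Nat.floor_eq_iff t.2.1.le]
    exact ⟨h1.le, h2⟩
  rw [s, if_neg, hf]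
  rintro ⟨m, hm⟩
  rw [hm] at h1 h2
  have e1 : n < m := by exact_mod_cast h1
  have e2 : m < n + 1 := by exact_mod_cast h2
  omega

/-- an integer or between two integers -/
theorem dich (t : Dy) : (∃ m : ℕ, (t : ℚ) = m + 1) ∨
    ∃ n : ℕ, (n : ℚ) < t ∧ (t : ℚ) < n + 1 := by
  have h1 := Nat.floor_le t.2.1.le
  have h2 := Nat.lt_floor_add_one (t : ℚ)
  rcases h1.eq_or_lt with h3 | h3
  · left
    have hp := t.2.1
    have : ⌊(t : ℚ)⌋₊ ≠ 0 := by
      intro h0
      rw [h0] at h3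
      simp only [Nat.cast_zero] at h3
      rw [← h3] at hp
      exact lt_irrefl _ hp
    obtain ⟨m, hm⟩ : ∃ m, ⌊(t : ℚ)⌋₊ = m + 1 := ⟨⌊(t : ℚ)⌋₊ - 1, by omega⟩
    rw [hm] at h3
    push_cast at h3
    exact ⟨m, h3.symm⟩
  · exact Or.inr ⟨_, h3, h2⟩

theorem lv_zero {t : Dy} (h : Lv 0 t) : ∃ m : ℕ, (t : ℚ) = m + 1 := by
  rcases dich t with h1 | ⟨n, h1, h2⟩
  · exact h1
  · exfalso
    obtain ⟨m, hm⟩ := h
    rw [pow_zero, one_mul] at hm
    rw [hm] at h1 h2
    have e1 : (n : ℤ) < m := by exact_mod_cast h1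
    have e2 : m < (n : ℤ) + 1 := by exact_mod_cast h2
    omega

theorem lv_mid (h : TAct G X) {K n : ℕ} {t : Dy} (ht : Lv (K + 1) t) (h1 : (n : ℚ) ≤ t)
    (h2 : (t : ℚ) ≤ n + 1) : Lv K (X n • t) := by
  obtain ⟨m, hm⟩ := ht
  refine ⟨m - 2 ^ K * n, ?_⟩
  rw [act_mid h h1 h2]
  push_cast
  rw [← hm]; ring

theorem s_int_act (h : TAct G X) (K : ℕ) (t : Dy) (m : ℕ) (ht : (t : ℚ) = m + 1) (j : ℕ) :
    s X K (X j • t) = X j • s X K t := by
  rw [s_int X K t m ht]
  rcases Nat.lt_or_ge m j with hj | hj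
  · rw [a_ge h.rel j m hj]
    have : X j • t = t := act_le h (by
      rw [ht]
      have : ((m + 1 : ℕ) : ℚ) ≤ j := by exact_mod_cast hj
      push_cast at this
      exact this)
    rw [this, s_int X K t m ht]
  · rw [a_le h.rel j m hj]
    apply s_int
    rw [act_ge h, ht]
    · push_cast; ring
    · rw [ht]
      have : (j : ℚ) ≤ m := by exact_mod_cast hj
      linarith

theorem cons (h : TAct G X) : ∀ (K : ℕ) (t : Dy), Lv K t → s X (K + 1) t = s X K t := by
  intro K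
  induction K with
  | zero =>
    intro t ht
    obtain ⟨m, hm⟩ := lv_zero ht
    rw [s_int X _ t m hm, s_int X _ t m hm]
  | succ K ih =>
    intro t ht
    rcases dich t with ⟨m, hm⟩ | ⟨n, h1, h2⟩
    · rw [s_int X _ t m hm, s_int X _ t m hm]
    · rw [s_non X _ t n h1 h2, s_non X _ t n h1 h2, ih _ (lv_mid h ht h1.le h2.le)]

theorem cons_le (h : TAct G X) {K L : ℕ} (hKL : K ≤ L) {t : Dy} (ht : Lv K t) :
    s X L t = s X K t := by
  induction L, hKL using Nat.le_induction with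
  | base => rfl
  | succ n hn ih => rw [cons h n t (lv_le hn ht), ih]

theorem eqv (h : TAct G X) : ∀ (K : ℕ) (t : Dy), Lv K t → ∀ j, s X K (X j • t) = X j • s X K t := by
  intro K
  induction K with
  | zero =>
    intro t ht j
    obtain ⟨m, hm⟩ := lv_zero ht
    exact s_int_act h 0 t m hm j
  | succ K ih =>
    intro t ht j
    rcases dich t with ⟨m, hm⟩ | ⟨n, h1, h2⟩
    · exact s_int_act h (K + 1) t m hm j
    · have hlv := lv_mid h ht h1.le h2.le
      have hmid := act_mid h h1.le h2.le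
      rw [s_non X K t n h1 h2]
      rcases lt_trichotomy j n with hj | rfl | hj
      · -- `j < n`
        have hr : X (n + 1) * X j = X j * X n := h.rel j n hj
        have hr' : X j * (X n)⁻¹ = (X (n + 1))⁻¹ * X j := by
          rw [eq_inv_mul_iff_mul_eq, ← mul_assoc, hr]; group
        have hjn : (j : ℚ) + 1 ≤ n := by
          have : ((j + 1 : ℕ) : ℚ) ≤ n := by exact_mod_cast hj
          push_cast at this
          exact this
        have e1 : ((X j • t : Dy) : ℚ) = t + 1 := act_ge h (by linarith)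
        have e2 : ((X j • (X n • t) : Dy) : ℚ) = (X n • t : Dy) + 1 := act_ge h (by
          rw [hmid]; linarith)
        have e3 : X (n + 1) • (X j • t) = X j • (X n • t) := by
          rw [← mul_smul, ← mul_smul, hr]
        rw [s_non X K (X j • t) (n + 1) (by rw [e1]; push_cast; linarith)
          (by rw [e1]; push_cast; linarith), e3, ih _ hlv j, ← mul_smul, ← mul_smul, hr']
      · -- `j = n`
        rw [smul_inv_smul]
        exact cons h K _ hlv
      · -- `n < j`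
        have hr : X (j + 1) * X n = X n * X j := h.rel n j hj
        have hr' : X j * (X n)⁻¹ = (X n)⁻¹ * X (j + 1) := by
          rw [eq_inv_mul_iff_mul_eq, ← mul_assoc, ← hr]; group
        have hjn : (n : ℚ) + 1 ≤ j := by
          have : ((n + 1 : ℕ) : ℚ) ≤ j := by exact_mod_cast hj
          push_cast at this
          exact this
        have e1 : X j • t = t := act_le h (by linarith)
        have e2 : X (j + 1) • (X n • t) = X n • t := act_le h (by
          rw [hmid]; push_cast; linarith)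
        rw [e1, s_non X K t n h1 h2, ← mul_smul, hr', mul_smul, ← ih _ hlv (j + 1), e2]

/-- the coset of the point `t` -/
noncomputable def sg (X : ℕ → G) (t : Dy) : G ⧸ P X := s X (lv_ex t).choose t

theorem sg_eq (h : TAct G X) {K : ℕ} {t : Dy} (ht : Lv K t) : sg X t = s X K t := by
  have h0 := (lv_ex t).choose_spec
  rw [sg, ← cons_le h (le_max_left (lv_ex t).choose K) h0,
    ← cons_le h (le_max_right (lv_ex t).choose K) ht]

theorem sg_act (h : TAct G X) (j : ℕ) (t : Dy) : sg X (X j • t) = X j • sg X t := by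
  obtain ⟨K, hK⟩ := lv_ex t
  obtain ⟨L, hL⟩ := lv_ex (X j • t)
  have h1 : Lv (max K L) t := lv_le (le_max_left _ _) hK
  have h2 : Lv (max K L) (X j • t) := lv_le (le_max_right _ _) hL
  rw [sg_eq h h1, sg_eq h h2, eqv h _ t h1]

theorem sg_smul (h : TAct G X) (g : G) : ∀ t : Dy, sg X (g • t) = g • sg X t := by
  have hg : g ∈ Subgroup.closure (Set.range X) := by rw [h.gen]; trivial
  induction hg using Subgroup.closure_induction with
  | mem x hx =>
    obtain ⟨j, rfl⟩ := hx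
    exact sg_act h j
  | one => intro t; simp
  | mul x y _ _ hx hy => intro t; rw [mul_smul, hx, hy, mul_smul]
  | inv x _ hx =>
    intro t
    have := hx (x⁻¹ • t)
    rw [smul_inv_smul] at this
    rw [this, inv_smul_smul]

/-- the point `1` -/
def one : Dy := ⟨1, by norm_num, 0, 1, by norm_num⟩

theorem sg_one (h : TAct G X) : sg X one = ((1 : G) : G ⧸ P X) := by
  have h0 : Lv 0 one := ⟨1, by simp [one]⟩
  rw [sg_eq h h0, s_int X 0 one 0 (by simp [one]), a, pow_zero]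

theorem pow_one (h : TAct G X) (m : ℕ) : ((X 0 ^ m • one : Dy) : ℚ) = m + 1 := by
  induction m with
  | zero => simp [one]
  | succ m ih =>
    rw [pow_succ', mul_smul, act_ge h, ih]
    · push_cast; ring
    · rw [ih]; push_cast; linarith [(Nat.cast_nonneg m : (0 : ℚ) ≤ m)]

theorem trans_one (h : TAct G X) : ∀ (K : ℕ) (t : Dy), Lv K t → ∃ g : G, g • one = t := by
  intro K
  induction K with
  | zero =>
    intro t ht
    obtain ⟨m, hm⟩ := lv_zero ht
    exact ⟨X 0 ^ m, Subtype.ext (by rw [pow_one h, hm])⟩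
  | succ K ih =>
    intro t ht
    rcases dich t with ⟨m, hm⟩ | ⟨n, h1, h2⟩
    · exact ⟨X 0 ^ m, Subtype.ext (by rw [pow_one h, hm])⟩
    · obtain ⟨g, hg⟩ := ih _ (lv_mid h ht h1.le h2.le)
      exact ⟨(X n)⁻¹ * g, by rw [mul_smul, hg, inv_smul_smul]⟩

theorem stab_one (h : TAct G X) : MulAction.stabilizer G one = P X := by
  apply le_antisymm
  · intro g hg
    have h1 := sg_smul h g one
    rw [MulAction.mem_stabilizer_iff.1 hg, sg_one h] at h1
    have h2 : ((1 : G) : G ⧸ P X) = ((g * 1 : G) : G ⧸ P X) := h1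
    rw [QuotientGroup.eq] at h2
    simpa using h2
  · rw [P, Subgroup.closure_le]
    rintro g (⟨k, hk, rfl⟩ | ⟨k, hk, rfl⟩)
    · apply MulAction.mem_stabilizer_iff.2
      apply act_le h
      have : ((1 : ℕ) : ℚ) ≤ k := by exact_mod_cast hk
      simpa [one] using this
    · apply MulAction.mem_stabilizer_iff.2
      rw [w, mul_smul, mul_smul, inv_smul_eq_iff]
      apply Subtype.ext
      rw [pow_one h, act_ge h, pow_one h]
      · push_cast; ring
      · rw [pow_one h]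
        have : ((1 : ℕ) : ℚ) ≤ k := by exact_mod_cast hk
        push_cast at this ⊢
        linarith

end act

/-- TASK TF4 of the project BH. -/
theorem t_TF4 : Y208.BH.S_TF4 := by
  intro G _ _ X h t
  obtain ⟨K, hK⟩ := lv_ex t
  obtain ⟨g, rfl⟩ := trans_one h K t hK
  rw [MulAction.stabilizer_smul_eq_stabilizer_map_conj, stab_one h]
  obtain ⟨S, hS, hfin⟩ := (Subgroup.fg_iff _).1 (P_fg h.rel)
  refine (Subgroup.fg_iff _).2 ⟨_, ?_, hfin.image (MulAut.conj g).toMonoidHom⟩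
  rw [← hS, MonoidHom.map_closure]

end Pool.Agent.Y983.BH
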